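import Pool.Agent.TH890.AS.R4

/-!
Counting in a cyclic group (helper893).
-/

set_option autoImplicit false
set_option linter.unusedSectionVars false

namespace Pool.Agent.TH893.JO

open Finset
open Pool.Agent.TH890.AS (pow_iff)

section Group

variable {G : Type*} [CommGroup G] [Fintype G] [DecidableEq G] [IsCyclic G]

lemma ex_iff {n d r : ℕ} (hn : Fintype.card G = n) (hd : d ∣ n) (b : G) :
    (∃ x : G, (b * x ^ r) ^ (n / d) = 1) ↔ b ^ (n / Nat.gcd r d) = 1 := by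
  have hg : Nat.gcd r d ∣ n := (Nat.gcd_dvd_right r d).trans hd
  rw [pow_iff hn hg]
  constructor
  · rintro ⟨x, hx⟩
    rw [pow_iff hn hd] at hx
    obtain ⟨z, hz⟩ := hx
    refine ⟨z ^ (d / Nat.gcd r d) * (x ^ (r / Nat.gcd r d))⁻¹, ?_⟩
    rw [mul_pow, inv_pow, ← pow_mul, ← pow_mul, Nat.div_mul_cancel (Nat.gcd_dvd_right r d),
      Nat.div_mul_cancel (Nat.gcd_dvd_left r d), hz]
    simp
  · rintro ⟨y, hy⟩
    refine ⟨y ^ (-(Nat.gcdA r d)), ?_⟩
    rw [pow_iff hn hd]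
    refine ⟨y ^ (Nat.gcdB r d), ?_⟩
    have h1 := Nat.gcd_eq_gcd_ab r d
    rw [← hy, ← zpow_natCast y (r.gcd d), ← zpow_natCast (y ^ (-(Nat.gcdA r d))) r, ← zpow_mul, ← zpow_add, h1,
      ← zpow_natCast (y ^ (Nat.gcdB r d)) d, ← zpow_mul]
    congr 1
    ring

/-- the size of a fibre -/
lemma card_fib {n d r : ℕ} (hn : Fintype.card G = n) (hd : d ∣ n) (b : G) :
    #((univ : Finset G).filter (fun x => (b * x ^ r) ^ (n / d) = 1)) =
      if b ^ (n / Nat.gcd r d) = 1 then n / d * Nat.gcd r d else 0 := by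
  by_cases hb : b ^ (n / Nat.gcd r d) = 1
  · rw [if_pos hb]
    obtain ⟨x₀, hx₀⟩ := (ex_iff hn hd b).2 hb
    set φ : G →* G := powMonoidHom (r * (n / d)) with hφ
    have hφ' : ∀ x, φ x = x ^ (r * (n / d)) := fun x => by rw [hφ, powMonoidHom_apply]
    have h1 : (univ : Finset G).filter (fun x => (b * x ^ r) ^ (n / d) = 1) =
        univ.filter (fun x => φ x = (b ^ (n / d))⁻¹) := by
      apply filter_congr
      intro x _
      rw [mul_pow, ← pow_mul, hφ', mul_comm, mul_eq_one_iff_eq_inv]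
    have hx0 : φ x₀ = (b ^ (n / d))⁻¹ := by
      have : x₀ ∈ (univ : Finset G).filter (fun x => (b * x ^ r) ^ (n / d) = 1) :=
        mem_filter.2 ⟨mem_univ _, hx₀⟩
      rw [h1, mem_filter] at this
      exact this.2
    rw [h1, MonoidHom.card_fiber_eq_of_mem_range φ ⟨_, hx0⟩ ⟨1, map_one φ⟩]
    have h2 : #((univ : Finset G).filter (fun x => φ x = 1)) = Nat.card φ.ker := by
      rw [Nat.card_eq_fintype_card, Fintype.card_subtype]
      congr 1
      ext x
      simp [MonoidHom.mem_ker]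
    rw [h2, hφ, IsCyclic.card_powMonoidHom_ker, Nat.card_eq_fintype_card, hn]
    have h3 : n = d * (n / d) := (Nat.mul_div_cancel' hd).symm
    calc n.gcd (r * (n / d)) = (d * (n / d)).gcd (r * (n / d)) := by rw [← h3]
      _ = d.gcd r * (n / d) := Nat.gcd_mul_right _ _ _
      _ = n / d * Nat.gcd r d := by rw [Nat.gcd_comm, mul_comm]
  · rw [if_neg hb, card_eq_zero, filter_eq_empty_iff]
    intro x _ hx
    exact hb ((ex_iff hn hd b).1 ⟨x, hx⟩)

lemma prod_dvd_cop (s : Finset ℕ) (f : ℕ → ℕ) (r : ℕ)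
    (h1 : ∀ l ∈ s, ∀ l' ∈ s, l ≠ l' → Nat.Coprime (f l) (f l')) (h2 : ∀ l ∈ s, f l ∣ r) :
    ∏ l ∈ s, f l ∣ r := by
  classical
  induction s using Finset.induction_on with
  | empty => simp
  | insert a s ha ih =>
    rw [Finset.prod_insert ha]
    refine Nat.Coprime.mul_dvd_of_dvd_of_dvd ?_ (h2 a (Finset.mem_insert_self a s)) ?_
    · apply Nat.Coprime.prod_right
      intro l hl
      refine h1 a (Finset.mem_insert_self a s) l (Finset.mem_insert_of_mem hl) ?_
      rintro rfl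
      exact ha hl
    · exact ih (fun l hl l' hl' => h1 l (Finset.mem_insert_of_mem hl) l'
        (Finset.mem_insert_of_mem hl')) fun l hl => h2 l (Finset.mem_insert_of_mem hl)

lemma gcd_prod (s : Finset ℕ) (f : ℕ → ℕ) (r : ℕ)
    (h1 : ∀ l ∈ s, ∀ l' ∈ s, l ≠ l' → Nat.Coprime (f l) (f l')) :
    Nat.gcd r (∏ l ∈ s, f l) = ∏ l ∈ s, Nat.gcd r (f l) := by
  classical
  induction s using Finset.induction_on with
  | empty => simp
  | insert a s ha ih =>
    rw [Finset.prod_insert ha, Finset.prod_insert ha, Nat.Coprime.gcd_mul, ih]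
    · exact fun l hl l' hl' => h1 l (Finset.mem_insert_of_mem hl) l' (Finset.mem_insert_of_mem hl')
    · apply Nat.Coprime.prod_right
      intro l hl
      refine h1 a (Finset.mem_insert_self a s) l (Finset.mem_insert_of_mem hl) ?_
      rintro rfl
      exact ha hl

/-- solutions for several pairwise coprime divisors -/
lemma pow_all {n : ℕ} (hn : Fintype.card G = n) (t : Finset ℕ) (Q : ℕ → ℕ) (hQ : ∀ l ∈ t, Q l ∣ n)
    (hc : ∀ l ∈ t, ∀ l' ∈ t, l ≠ l' → Nat.Coprime (Q l) (Q l')) (y : G) :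
    (∀ l ∈ t, y ^ (n / Q l) = 1) ↔ y ^ (n / ∏ l ∈ t, Q l) = 1 := by
  have hn0 : 0 < n := by rw [← hn]; exact Fintype.card_pos
  have hy : orderOf y ∣ n := by rw [← hn]; exact orderOf_dvd_card
  have key : ∀ d : ℕ, d ∣ n → (y ^ (n / d) = 1 ↔ d ∣ n / orderOf y) := by
    intro d hd
    rw [← orderOf_dvd_iff_pow_eq_one]
    have ho : 0 < orderOf y := orderOf_pos y
    have hd0 : 0 < d := Nat.pos_of_dvd_of_pos hd hn0
    rw [Nat.dvd_div_iff_mul_dvd hd, Nat.dvd_div_iff_mul_dvd hy, mul_comm]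
  have hprod : ∏ l ∈ t, Q l ∣ n := prod_dvd_cop t Q n hc hQ
  rw [key _ hprod]
  constructor
  · intro h
    exact prod_dvd_cop t Q _ hc (fun l hl => (key _ (hQ l hl)).1 (h l hl))
  · intro h l hl
    exact (key _ (hQ l hl)).2 ((Finset.dvd_prod_of_mem _ hl).trans h)

/-- the local factor -/
noncomputable def PQ (n r : ℕ) (b : G) (q : ℕ) : ℝ :=
  if b ^ (n / Nat.gcd r q) = 1 then (Nat.gcd r q : ℝ) / q else 0

/-- the number of `x` such that `b x ^ r` is a `Q l`-th power for no `l ∈ L` -/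
lemma card_LQ {n r : ℕ} (hn : Fintype.card G = n) (L : Finset ℕ) (Q : ℕ → ℕ)
    (hQ : ∀ l ∈ L, Q l ∣ n) (hc : ∀ l ∈ L, ∀ l' ∈ L, l ≠ l' → Nat.Coprime (Q l) (Q l')) (b : G) :
    (#((univ : Finset G).filter (fun x => ∀ l ∈ L, (b * x ^ r) ^ (n / Q l) ≠ 1)) : ℝ) =
      n * ∏ l ∈ L, (1 - PQ n r b (Q l)) := by
  classical
  have hn0 : 0 < n := by rw [← hn]; exact Fintype.card_pos
  have h1 : ∀ x : G, (if ∀ l ∈ L, (b * x ^ r) ^ (n / Q l) ≠ 1 then (1 : ℝ) else 0) =
      ∑ t ∈ L.powerset, (∏ _l ∈ t, (-1 : ℝ)) *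
        (if ∀ l ∈ t, (b * x ^ r) ^ (n / Q l) = 1 then 1 else 0) := by
    intro x
    have e : (if ∀ l ∈ L, (b * x ^ r) ^ (n / Q l) ≠ 1 then (1 : ℝ) else 0) =
        ∏ l ∈ L, (1 + (-1) * (if (b * x ^ r) ^ (n / Q l) = 1 then (1 : ℝ) else 0)) := by
      by_cases h : ∀ l ∈ L, (b * x ^ r) ^ (n / Q l) ≠ 1
      · rw [if_pos h]
        symm
        apply prod_eq_one
        intro l hl
        rw [if_neg (h l hl)]
        ring
      · rw [if_neg h]
        push Not at h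
        obtain ⟨l, hl, h2⟩ := h
        symm
        apply prod_eq_zero hl
        rw [if_pos h2]
        ring
    rw [e, prod_one_add]
    refine sum_congr rfl fun t _ => ?_
    rw [prod_mul_distrib]
    congr 1
    by_cases h : ∀ l ∈ t, (b * x ^ r) ^ (n / Q l) = 1
    · rw [if_pos h]
      exact prod_eq_one fun l hl => if_pos (h l hl)
    · rw [if_neg h]
      push Not at h
      obtain ⟨l, hl, h2⟩ := h
      exact prod_eq_zero hl (if_neg h2)
  have h2 : ∀ t ∈ L.powerset,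
      ∑ x : G, (if ∀ l ∈ t, (b * x ^ r) ^ (n / Q l) = 1 then (1 : ℝ) else 0) =
      n * ∏ l ∈ t, PQ n r b (Q l) := by
    intro t ht
    rw [mem_powerset] at ht
    have hct : ∀ l ∈ t, ∀ l' ∈ t, l ≠ l' → Nat.Coprime (Q l) (Q l') :=
      fun l hl l' hl' => hc l (ht hl) l' (ht hl')
    have hprod : ∏ l ∈ t, Q l ∣ n := prod_dvd_cop t Q n hct (fun l hl => hQ l (ht hl))
    have h3 := card_fib (r := r) hn hprod b
    have e : ∑ x : G, (if ∀ l ∈ t, (b * x ^ r) ^ (n / Q l) = 1 then (1 : ℝ) else 0) =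
        (#((univ : Finset G).filter (fun x => (b * x ^ r) ^ (n / ∏ l ∈ t, Q l) = 1)) : ℝ) := by
      rw [card_filter]
      push_cast
      refine sum_congr rfl fun x _ => ?_
      simp only [pow_all hn t Q (fun l hl => hQ l (ht hl)) hct (b * x ^ r)]
    rw [e, h3, gcd_prod t Q r hct]
    have h4 : (∀ l ∈ t, b ^ (n / Nat.gcd r (Q l)) = 1) ↔
        b ^ (n / ∏ l ∈ t, Nat.gcd r (Q l)) = 1 :=
      pow_all hn t (fun l => Nat.gcd r (Q l))
        (fun l hl => (Nat.gcd_dvd_right _ _).trans (hQ l (ht hl)))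
        (fun l hl l' hl' hne => Nat.Coprime.coprime_dvd_left (Nat.gcd_dvd_right _ _)
          (Nat.Coprime.coprime_dvd_right (Nat.gcd_dvd_right _ _) (hct l hl l' hl' hne))) b
    by_cases hb : b ^ (n / ∏ l ∈ t, Nat.gcd r (Q l)) = 1
    · rw [if_pos hb]
      rw [← h4] at hb
      have h5 : ∏ l ∈ t, PQ n r b (Q l) = ∏ l ∈ t, ((Nat.gcd r (Q l) : ℝ) / (Q l : ℝ)) := by
        refine prod_congr rfl fun l hl => ?_
        unfold PQ
        rw [if_pos (hb l hl)]
      rw [h5, prod_div_distrib, Nat.cast_mul, Nat.cast_div hprod (by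
        have : 0 < ∏ l ∈ t, Q l := Nat.pos_of_dvd_of_pos hprod hn0
        exact_mod_cast this.ne')]
      push_cast
      ring
    · rw [if_neg hb]
      rw [← h4] at hb
      push Not at hb
      obtain ⟨l, hl, hbl⟩ := hb
      rw [prod_eq_zero hl (by unfold PQ; rw [if_neg hbl])]
      simp
  calc (#((univ : Finset G).filter (fun x => ∀ l ∈ L, (b * x ^ r) ^ (n / Q l) ≠ 1)) : ℝ)
      = ∑ x : G, (if ∀ l ∈ L, (b * x ^ r) ^ (n / Q l) ≠ 1 then (1 : ℝ) else 0) := by
        rw [card_filter]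
        push_cast
        rfl
    _ = ∑ t ∈ L.powerset, (∏ _l ∈ t, (-1 : ℝ)) *
          ∑ x : G, (if ∀ l ∈ t, (b * x ^ r) ^ (n / Q l) = 1 then (1 : ℝ) else 0) := by
        simp only [h1]
        rw [sum_comm]
        simp only [mul_sum]
    _ = ∑ t ∈ L.powerset, n * ∏ l ∈ t, (-(PQ n r b (Q l))) := by
        refine sum_congr rfl fun t ht => ?_
        rw [h2 t ht]
        have e : ∏ l ∈ t, (-(PQ n r b (Q l))) = (∏ _l ∈ t, (-1 : ℝ)) * ∏ l ∈ t, PQ n r b (Q l) := by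
          rw [← prod_mul_distrib]
          exact prod_congr rfl fun l _ => by ring
        rw [e]
        ring
    _ = n * ∏ l ∈ L, (1 + (-(PQ n r b (Q l)))) := by rw [← mul_sum, prod_one_add]
    _ = _ := by simp only [sub_eq_add_neg]

end Group

end Pool.Agent.TH893.JO
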