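import Pool.Agent.TH893.JO.G
import Pool.Agent.TH890.AS.R5
import Pool.Agent.W171.LG.LenDatR

/-!
Lenstra's index condition along arbitrary sets of primes (helper893).
-/

set_option autoImplicit false
set_option linter.unusedSectionVars false

namespace Pool.Agent.TH893.JO

open Finset NumberField
open Pool.Agent.TH890.AS
open Pool.Agent.W171.LG (QA QR LC_iffR Un rd UnW PW GF rd_ne un_iff unW_iff IdxC LC DR gp_eqR)
open Pool.Agent.H981R3.LN (ql Sk mem_Sk Sk_dvd Sk_prime)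

section
variable {p : ℕ} [hp : Fact p.Prime]

/-- powers modulo `p` -/
lemma zpow_iff {a : ZMod p} (ha : a ≠ 0) {d : ℕ} (hd : d ∣ p - 1) :
    a ^ ((p - 1) / d) = 1 ↔ ∃ y : ZMod p, y ^ d = a := by
  have hp1 : 0 < p - 1 := by have := hp.out.one_lt; omega
  have hcard : Fintype.card (ZMod p)ˣ = p - 1 := ZMod.card_units p
  have hd0 : d ≠ 0 := (Nat.pos_of_dvd_of_pos hd hp1).ne'
  have h := pow_iff hcard hd (Units.mk0 a ha)
  constructor
  · intro h1
    have h2 : (Units.mk0 a ha) ^ ((p - 1) / d) = 1 := by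
      apply Units.ext
      rw [Units.val_pow_eq_pow_val, Units.val_mk0, Units.val_one, h1]
    obtain ⟨y, hy⟩ := h.1 h2
    refine ⟨(y : ZMod p), ?_⟩
    rw [← Units.val_pow_eq_pow_val, hy, Units.val_mk0]
  · rintro ⟨y, hy⟩
    have hy0 : y ≠ 0 := by
      rintro rfl
      rw [zero_pow hd0] at hy
      exact ha hy.symm
    have h2 := h.2 ⟨Units.mk0 y hy0, by
      apply Units.ext
      rw [Units.val_pow_eq_pow_val, Units.val_mk0, Units.val_mk0, hy]⟩
    have h3 := congrArg (fun z : (ZMod p)ˣ => (z : ZMod p)) h2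
    simpa using h3

open Classical in
/-- the local factor in elementary terms -/
noncomputable def PD (r : ℕ) (b : ZMod p) (q : ℕ) : ℝ :=
  if ∃ y : ZMod p, y ^ Nat.gcd r q = b then (Nat.gcd r q : ℝ) / q else 0

open Classical in
/-- residue classes `x ≠ 0` such that `b x ^ r` is a `Q l`-th power for no `l ∈ L` -/
lemma dens_L (b : ZMod p) (hb : b ≠ 0) {r : ℕ} (L : Finset ℕ) (Q : ℕ → ℕ)
    (hQ : ∀ l ∈ L, Q l ∣ p - 1) (hc : ∀ l ∈ L, ∀ l' ∈ L, l ≠ l' → Nat.Coprime (Q l) (Q l')) :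
    dens p (fun x => x ≠ 0 ∧ ∀ l ∈ L, (b * x ^ r) ^ ((p - 1) / Q l) ≠ 1) =
      ∏ l ∈ L, (1 - PD r b (Q l)) := by
  have hp1 : 0 < p - 1 := by have := hp.out.one_lt; omega
  have hcard : Fintype.card (ZMod p)ˣ = p - 1 := ZMod.card_units p
  rw [dens_eq]
  have h1 : #((univ : Finset (ZMod p)).filter
      (fun x => x ≠ 0 ∧ ∀ l ∈ L, (b * x ^ r) ^ ((p - 1) / Q l) ≠ 1)) =
      #((univ : Finset (ZMod p)ˣ).filter
        (fun u => ∀ l ∈ L, (Units.mk0 b hb * u ^ r) ^ ((p - 1) / Q l) ≠ 1)) := by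
    have hval : ∀ (u : (ZMod p)ˣ) (l : ℕ), (Units.mk0 b hb * u ^ r) ^ ((p - 1) / Q l) = 1 ↔
        (b * (u : ZMod p) ^ r) ^ ((p - 1) / Q l) = 1 := by
      intro u l
      rw [← Units.val_inj, Units.val_pow_eq_pow_val, Units.val_mul, Units.val_pow_eq_pow_val,
        Units.val_mk0, Units.val_one]
    symm
    apply card_bij (fun (u : (ZMod p)ˣ) _ => (u : ZMod p))
    · intro u hu
      rw [mem_filter] at hu ⊢
      exact ⟨mem_univ _, u.ne_zero, fun l hl h => hu.2 l hl ((hval u l).2 h)⟩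
    · intro u _ v _ h
      exact Units.ext h
    · intro x hx
      rw [mem_filter] at hx
      refine ⟨Units.mk0 x hx.2.1, ?_, rfl⟩
      rw [mem_filter]
      exact ⟨mem_univ _, fun l hl h => hx.2.2 l hl ((hval _ l).1 h)⟩
  rw [h1, card_LQ hcard L Q hQ hc, mul_comm, mul_div_assoc, div_self (by exact_mod_cast hp1.ne'),
    mul_one]
  refine prod_congr rfl fun l hl => ?_
  congr 1
  unfold PQ PD
  have h2 := zpow_iff hb ((Nat.gcd_dvd_right r (Q l)).trans (hQ l hl))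
  have h3 : (Units.mk0 b hb) ^ ((p - 1) / Nat.gcd r (Q l)) = 1 ↔
      b ^ ((p - 1) / Nat.gcd r (Q l)) = 1 := by
    rw [← Units.val_inj, Units.val_pow_eq_pow_val, Units.val_mk0, Units.val_one]
  simp only [h3, h2]

open Classical in
lemma rep_L (b : ZMod p) {r : ℕ} (hr : r ≠ 0) (L : Finset ℕ) (Q : ℕ → ℕ)
    (hQ : ∀ l ∈ L, Q l ∣ p - 1) :
    Rep p (fun x => if x ≠ 0 ∧ ∀ l ∈ L, (b * x ^ r) ^ ((p - 1) / Q l) ≠ 1 then (1 : ℂ) else 0)
      (2 ^ #L) := by
  have hp1 : 0 < p - 1 := by have := hp.out.one_lt; omega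
  have h := rep_prod (p := p) L
    (fun l x => (1 : DirichletCharacter ℂ p) x -
      (if (b * x ^ r) ^ ((p - 1) / Q l) = 1 then (1 : ℂ) else 0))
    (fun _ => (1 : ℝ) + 1) (fun _ _ => by norm_num)
    (fun l hl => rep_sub rep_one (rep_pull (rep_ker (by
      have h1 := Nat.le_of_dvd hp1 (hQ l hl)
      have h2 := Nat.pos_of_dvd_of_pos (hQ l hl) hp1
      exact (Nat.div_pos h1 h2).ne')) b hr))
  rw [prod_const] at h
  norm_num at h
  convert h using 1
  funext x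
  by_cases hx : x = 0
  · subst hx
    rw [if_neg (fun h3 => h3.1 rfl), MulChar.map_zero, zero_mul]
  · have hu : (1 : DirichletCharacter ℂ p) x = 1 := MulChar.one_apply (isUnit_iff_ne_zero.2 hx)
    simp only [hu, one_mul]
    by_cases h3 : ∀ l ∈ L, (b * x ^ r) ^ ((p - 1) / Q l) ≠ 1
    · rw [if_pos ⟨hx, h3⟩]
      symm
      apply prod_eq_one
      intro l hl
      rw [if_neg (h3 l hl), sub_zero]
    · rw [if_neg (fun h4 => h3 h4.2)]
      push Not at h3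
      obtain ⟨l, hl, h4⟩ := h3
      symm
      apply prod_eq_zero hl
      rw [if_pos h4, sub_self]

lemma ql_cop (k : ℕ) {l l' : ℕ} (hl : l ∈ Sk k (p - 1)) (hl' : l' ∈ Sk k (p - 1)) (hne : l ≠ l') :
    Nat.Coprime (ql k l) (ql k l') := by
  unfold ql
  exact Nat.Coprime.pow _ _ ((Nat.coprime_primes (Sk_prime hl) (Sk_prime hl')).2 hne)

section
variable (F : IntermediateField ℚ QA) [NumberField F] [IsGalois ℚ F] (C : Set Gal(F/ℚ))
  (W0 : Subgroup ℚˣ) (k : ℕ) (D : ℚˣ) (r : ℕ)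

open Classical in
/-- the primes `l` which matter -/
noncomputable def LL (p : ℕ) : Finset ℕ := (Sk k (p - 1)).filter (fun l => PW W0 (ql k l) p)

lemma QR_iff (x : ZMod p) : QR F C W0 k D r p x ↔ (GF F C p ∧ UnW W0 p ∧ Un p (D : ℚ)) ∧
    (x ≠ 0 ∧ ∀ l ∈ LL W0 k p, (rd p (D : ℚ) * x ^ r) ^ ((p - 1) / ql k l) ≠ 1) := by
  classical
  unfold QR LL
  constructor
  · rintro ⟨h1, h2, h3, h4, h5⟩
    refine ⟨⟨h1, h2, h3⟩, h4, fun l hl h6 => ?_⟩
    rw [mem_filter] at hl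
    exact h5 l hl.1 ⟨hl.2, h6⟩
  · rintro ⟨⟨h1, h2, h3⟩, h4, h5⟩
    refine ⟨h1, h2, h3, h4, fun l hl h6 => ?_⟩
    exact h5 l (mem_filter.2 ⟨hl, h6.1⟩) h6.2

lemma LL_dvd {l : ℕ} (hl : l ∈ LL W0 k p) : ql k l ∣ p - 1 := by
  classical
  unfold LL at hl
  rw [mem_filter] at hl
  exact Sk_dvd hl.1

lemma LL_cop {l l' : ℕ} (hl : l ∈ LL W0 k p) (hl' : l' ∈ LL W0 k p) (hne : l ≠ l') :
    Nat.Coprime (ql k l) (ql k l') := by
  classical
  unfold LL at hl hl'
  rw [mem_filter] at hl hl'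
  exact ql_cop k hl.1 hl'.1 hne

open Classical in
lemma dens_QR : dens p (QR F C W0 k D r p) =
    if GF F C p ∧ UnW W0 p ∧ Un p (D : ℚ) then ∏ l ∈ LL W0 k p, (1 - PD r (rd p (D : ℚ)) (ql k l))
    else 0 := by
  by_cases h : GF F C p ∧ UnW W0 p ∧ Un p (D : ℚ)
  · rw [if_pos h, ← dens_L (rd p (D : ℚ)) (rd_ne h.2.2) (r := r) (LL W0 k p) (ql k)
      (fun l hl => LL_dvd W0 k hl) (fun l hl l' hl' hne => LL_cop W0 k hl hl' hne)]
    congr 1
    funext x
    rw [QR_iff]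
    simp [h]
  · rw [if_neg h, dens_eq]
    have e : (univ : Finset (ZMod p)).filter (QR F C W0 k D r p) = ∅ := by
      rw [filter_eq_empty_iff]
      intro x _ hx
      exact h ((QR_iff F C W0 k D r x).1 hx).1
    rw [e, card_empty, Nat.cast_zero, zero_div]

open Classical in
lemma rep_QR (hr : r ≠ 0) : Rep p (fun x => if QR F C W0 k D r p x then (1 : ℂ) else 0)
    ((p - 1).divisors.card : ℝ) := by
  have hp1 : 0 < p - 1 := by have := hp.out.one_lt; omega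
  by_cases h : GF F C p ∧ UnW W0 p ∧ Un p (D : ℚ)
  · have h1 := rep_L (rd p (D : ℚ)) hr (LL W0 k p) (ql k) (fun l hl => LL_dvd W0 k hl)
    have h2 : (2 : ℝ) ^ #(LL W0 k p) ≤ ((p - 1).divisors.card : ℝ) := by
      refine le_trans ?_ (two_pow_le hp1.ne')
      rw [prod_const]
      norm_num
      apply pow_le_pow_right₀ (by norm_num)
      apply card_le_card
      intro l hl
      unfold LL Sk at hl
      rw [mem_filter, mem_filter] at hl
      exact hl.1.1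
    have h3 := rep_mono h1 h2
    convert h3 using 1
    funext x
    simp only [QR_iff, h, and_self, true_and]
  · have h1 : (fun x => if QR F C W0 k D r p x then (1 : ℂ) else 0) = fun _ => 0 := by
      funext x
      rw [if_neg (fun hx => h ((QR_iff F C W0 k D r x).1 hx).1)]
    rw [h1]
    exact ⟨fun _ => 0, by simp, fun x => by simp⟩

end

end

open Classical in
/-- Lenstra's condition along arbitrary sets of primes -/
theorem len_sets (σ δ : ℝ) (hσ : 0 < σ) (hδ : 0 < δ) (κ C₀ : ℕ) (hκ : 1 ≤ κ) (hC₀ : 1 ≤ C₀) :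
    ∃ c : ℝ, 0 < c ∧ ∃ X₀ : ℕ, ∀ X : ℕ, X₀ ≤ X → ∀ N : ℕ, X ^ 2 ≤ N ^ κ → N ≤ X ^ C₀ →
    ∀ S : Finset ℕ, (∀ p ∈ S, p.Prime ∧ p ≤ X) → (X : ℝ) ^ σ ≤ #S →
    ∀ (F : IntermediateField ℚ QA) [NumberField F] [IsGalois ℚ F] (C : Set Gal(F/ℚ))
      (W0 : Subgroup ℚˣ) (k : ℕ) (D : ℚˣ) (r : ℕ), k ≠ 0 → r ≠ 0 →
      (∀ p ∈ S, padicValRat p (D : ℚ) = 0) →
    (#((Icc 1 N).filter (fun n : ℕ => #S * (X : ℝ) ^ (-c) <
      |(#(S.filter (fun p => LC F C k
          (W0 ⊔ Subgroup.closure {w : ℚˣ | (w : ℚ) = (D : ℚ) * (n : ℚ) ^ r}) p)) : ℝ) -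
        ∑ p ∈ S, dens p (QR F C W0 k D r p)|)) : ℝ) ≤ N * (X : ℝ) ^ (-(σ - δ) / κ) := by
  obtain ⟨c, hc0, n1, hmain⟩ := main σ δ hσ hδ κ C₀ hκ hC₀
  obtain ⟨C₄, hC₄, hdiv⟩ := Pool.Agent.H510R2.divisor_bound (c / 2) (by positivity)
  obtain ⟨n2, h2⟩ := ev_rpow C₄ (c / 2) (by positivity)
  refine ⟨c, hc0, max (max n1 n2) 1, ?_⟩
  intro X hX N hXN hNX S hS hSσ F _ _ C W0 k D r hk hr hD
  have a1 : n1 ≤ X := (le_max_left _ _).trans ((le_max_left _ _).trans hX)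
  have a2 := h2 X ((le_max_right _ _).trans ((le_max_left _ _).trans hX))
  have hX1 : 1 ≤ X := (le_max_right _ _).trans hX
  have hXr : (1 : ℝ) ≤ X := by exact_mod_cast hX1
  have hX0 : (0 : ℝ) < X := by linarith
  have h := hmain X a1 N hXN hNX S hS hSσ (QR F C W0 k D r) (by
      intro p hp hF
      have hprime := (hS p hp).1
      refine ⟨fun h => h.2.2.2.1 rfl, ?_⟩
      refine rep_mono (K := ((p - 1).divisors.card : ℝ)) (by convert rep_QR F C W0 k D r hr) ?_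
      have hp1 : 1 ≤ p - 1 := by have := hprime.one_lt; omega
      refine (hdiv (p - 1) hp1).trans ?_
      have h4 : ((p - 1 : ℕ) : ℝ) ≤ X := by
        have := (hS p hp).2
        exact_mod_cast (by omega : p - 1 ≤ X)
      calc C₄ * ((p - 1 : ℕ) : ℝ) ^ (c / 2) ≤ (X : ℝ) ^ (c / 2) * (X : ℝ) ^ (c / 2) := by
            apply mul_le_mul a2 _ (by positivity) (by positivity)
            exact Real.rpow_le_rpow (Nat.cast_nonneg _) h4 (by positivity)
        _ = (X : ℝ) ^ c := by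
            rw [← Real.rpow_add hX0]
            ring_nf)
  refine le_trans (le_of_eq ?_) h
  congr 2
  apply filter_congr
  intro n hn
  rw [mem_Icc] at hn
  have hn0 : n ≠ 0 := by omega
  unfold dev
  have e2 : S.filter (fun p => LC F C k
      (W0 ⊔ Subgroup.closure {w : ℚˣ | (w : ℚ) = (D : ℚ) * (n : ℚ) ^ r}) p) =
      S.filter (fun p => QR F C W0 k D r p ((n : ℕ) : ZMod p)) := by
    apply filter_congr
    intro p hp
    have : Fact p.Prime := ⟨(hS p hp).1⟩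
    rw [gp_eqR W0 D r hn0]
    exact LC_iffR F C W0 k D r hk hr (hS p hp).1 ((un_iff D.ne_zero).2 (hD p hp)) hn0
  rw [e2]

end Pool.Agent.TH893.JO
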