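import Pool.Agent.TH890.AS.R5

/-!
Joint laws of multiplicative orders along arbitrary sets of primes (helper893).
-/

set_option autoImplicit false

namespace Pool.Agent.TH893.JO

open Finset
open Pool.Agent.TH890.AS

variable {p : ℕ} [hp : Fact p.Prime]

lemma rep_zero : Rep p (fun _ => (0 : ℂ)) 0 := by
  refine ⟨fun _ => 0, by simp, fun x => by simp⟩

lemma rep_add {f g : ZMod p → ℂ} {K L : ℝ} (hf : Rep p f K) (hg : Rep p g L) :
    Rep p (fun x => f x + g x) (K + L) := by
  obtain ⟨a, ha, ha'⟩ := hf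
  obtain ⟨b, hb, hb'⟩ := hg
  refine ⟨fun χ => a χ + b χ, ?_, fun x => ?_⟩
  · calc ∑ χ, ‖a χ + b χ‖ ≤ ∑ χ, (‖a χ‖ + ‖b χ‖) := sum_le_sum fun χ _ => norm_add_le _ _
      _ = ∑ χ, ‖a χ‖ + ∑ χ, ‖b χ‖ := sum_add_distrib
      _ ≤ K + L := add_le_add ha hb
  · beta_reduce
    rw [ha', hb', ← sum_add_distrib]
    exact sum_congr rfl fun χ _ => by ring

lemma rep_sum {ι : Type*} (s : Finset ι) (f : ι → ZMod p → ℂ) (K : ι → ℝ)
    (hf : ∀ i ∈ s, Rep p (f i) (K i)) : Rep p (fun x => ∑ i ∈ s, f i x) (∑ i ∈ s, K i) := by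
  classical
  induction s using Finset.induction_on with
  | empty => simpa using rep_zero (p := p)
  | insert i s hi ih =>
    have h := rep_add (hf i (mem_insert_self i s)) (ih fun j hj => hf j (mem_insert_of_mem hj))
    rw [sum_insert hi]
    convert h using 1
    funext x
    rw [sum_insert hi]

lemma two_pow_card {n : ℕ} (hn : n ≠ 0) {h : ℕ} (hh : h ∣ n) :
    ∏ _l ∈ h.primeFactors, ((1 : ℝ) + 1) ≤ n.divisors.card := by
  have hh0 : h ≠ 0 := fun h0 => hn (by rw [h0] at hh; exact Nat.eq_zero_of_zero_dvd hh)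
  refine (two_pow_le hh0).trans ?_
  exact_mod_cast card_le_card (Nat.divisors_subset_of_dvd hn hh)

/-- the elements of given order -/
lemma rep_ord {h : ℕ} (hh : h ∣ p - 1) :
    Rep p (fun x => if orderOf x = h then (1 : ℂ) else 0) ((p - 1).divisors.card : ℝ) := by
  classical
  have hp1 : 0 < p - 1 := by have := hp.out.one_lt; omega
  have hh0 : 0 < h := Nat.pos_of_dvd_of_pos hh hp1
  have h1 := rep_prod (p := p) h.primeFactors
    (fun l x => (1 : DirichletCharacter ℂ p) x - (if x ^ (h / l) = 1 then (1 : ℂ) else 0))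
    (fun _ => (1 : ℝ) + 1) (fun _ _ => by norm_num)
    (fun l hl => rep_sub rep_one (rep_ker (by
      have h1 := Nat.le_of_dvd hh0 (Nat.dvd_of_mem_primeFactors hl)
      have h2 := (Nat.prime_of_mem_primeFactors hl).pos
      exact (Nat.div_pos h1 h2).ne')))
  have h2 := rep_mul (rep_ker (p := p) hh0.ne') h1 (by norm_num)
  have h3 := rep_mono h2 (L := ((p - 1).divisors.card : ℝ)) (by
    rw [one_mul]
    exact two_pow_card hp1.ne' hh)
  convert h3 using 1
  funext x
  by_cases hx : x ^ h = 1
  · have hx0 : x ≠ 0 := by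
      intro h0
      rw [h0, zero_pow hh0.ne'] at hx
      exact zero_ne_one hx
    have hu : (1 : DirichletCharacter ℂ p) x = 1 := MulChar.one_apply (isUnit_iff_ne_zero.2 hx0)
    simp only [hu, one_mul, if_pos hx]
    by_cases ho : orderOf x = h
    · rw [if_pos ho]
      symm
      apply prod_eq_one
      intro l hl
      have h3 : x ^ (h / l) ≠ 1 := by
        have hl1 := (Nat.prime_of_mem_primeFactors hl).one_lt
        have hl2 : 0 < h / l :=
          Nat.div_pos (Nat.le_of_dvd hh0 (Nat.dvd_of_mem_primeFactors hl)) (by omega)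
        apply pow_ne_one_of_lt_orderOf hl2.ne'
        rw [ho]
        exact Nat.div_lt_self hh0 hl1
      rw [if_neg h3, sub_zero]
    · rw [if_neg ho]
      have h3 : ∃ l ∈ h.primeFactors, x ^ (h / l) = 1 := by
        by_contra hcon
        push Not at hcon
        apply ho
        apply orderOf_eq_of_pow_and_pow_div_prime hh0 hx
        intro l hl hd
        exact hcon l (Nat.mem_primeFactors.2 ⟨hl, hd, hh0.ne'⟩)
      obtain ⟨l, hl, h4⟩ := h3
      symm
      apply prod_eq_zero hl
      rw [if_pos h4, sub_self]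
  · have ho : orderOf x ≠ h := by
      intro h0
      apply hx
      rw [← h0]
      exact pow_orderOf_eq_one x
    rw [if_neg ho, if_neg hx, zero_mul]

/-- the elements `x ≠ 0` with `b x ^ r` of order `h` -/
lemma rep_ordpull (b : ZMod p) {r : ℕ} (hr : r ≠ 0) (h : ℕ) :
    Rep p (fun x => if x ≠ 0 ∧ orderOf (b * x ^ r) = h then (1 : ℂ) else 0)
      ((p - 1).divisors.card : ℝ) := by
  classical
  have hp1 : 0 < p - 1 := by have := hp.out.one_lt; omega
  have hd1 : (1 : ℝ) ≤ ((p - 1).divisors.card : ℝ) := by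
    have : 0 < (p - 1).divisors.card := card_pos.2 ⟨1, Nat.mem_divisors.2 ⟨one_dvd _, hp1.ne'⟩⟩
    exact_mod_cast this
  by_cases hh : h ∣ p - 1
  · have h1 := rep_pull (rep_ord hh) b hr
    convert h1 using 1
    funext x
    by_cases hx : x = 0
    · have h2 : orderOf (b * x ^ r) ≠ h := by
        rw [hx, zero_pow hr, mul_zero]
        intro h3
        have h4 : (0 : ZMod p) ^ h = 1 := by rw [← h3]; exact pow_orderOf_eq_one _
        rw [zero_pow (Nat.pos_of_dvd_of_pos hh hp1).ne'] at h4
        exact zero_ne_one h4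
      rw [if_neg (fun h3 => h2 h3.2), if_neg h2]
    · simp only [ne_eq, hx, not_false_eq_true, true_and]
  · by_cases h0 : b = 0 ∧ h = 0
    · obtain ⟨hb, hh0⟩ := h0
      have h2 : orderOf (0 : ZMod p) = 0 := by
        rw [orderOf_eq_zero_iff']
        intro n hn h3
        rw [zero_pow hn.ne'] at h3
        exact zero_ne_one h3
      refine rep_mono (K := 1) ?_ hd1
      convert rep_one (p := p) using 1
      funext x
      by_cases hx : x = 0
      · subst hx
        rw [if_neg (fun h3 => h3.1 rfl), MulChar.map_zero]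
      · rw [if_pos ⟨hx, by rw [hb, zero_mul, hh0, h2]⟩,
          MulChar.one_apply (isUnit_iff_ne_zero.2 hx)]
    · refine rep_mono (K := 0) ?_ (by linarith)
      convert rep_zero (p := p) using 1
      funext x
      rw [if_neg]
      rintro ⟨hx, ho⟩
      by_cases hb : b = 0
      · apply h0
        refine ⟨hb, ?_⟩
        rw [← ho, hb, zero_mul, orderOf_eq_zero_iff']
        intro n hn h3
        rw [zero_pow hn.ne'] at h3
        exact zero_ne_one h3
      · apply hh
        rw [← ho]
        exact orderOf_dvd_of_pow_eq_one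
          (ZMod.pow_card_sub_one_eq_one (mul_ne_zero hb (pow_ne_zero r hx)))

/-- arbitrary sets of vectors of orders -/
lemma rep_vec {t : ℕ} (b : Fin t → ZMod p) (r : Fin t → ℕ) (hr : ∀ i, r i ≠ 0)
    (J : Set (Fin t → ℕ)) :
    Rep p (fun x => by
        classical exact if x ≠ 0 ∧ (fun i => orderOf (b i * x ^ r i)) ∈ J then (1 : ℂ) else 0)
      ((2 * ((p - 1).divisors.card : ℝ) ^ 2) ^ t) := by
  classical
  have hp1 : 0 < p - 1 := by have := hp.out.one_lt; omega
  set D : Finset ℕ := insert 0 (p - 1).divisors with hD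
  have hd1 : 1 ≤ (p - 1).divisors.card := card_pos.2 ⟨1, Nat.mem_divisors.2 ⟨one_dvd _, hp1.ne'⟩⟩
  have hd1r : (1 : ℝ) ≤ ((p - 1).divisors.card : ℝ) := by exact_mod_cast hd1
  have hDc : (D.card : ℝ) ≤ 2 * ((p - 1).divisors.card : ℝ) := by
    have h1 : D.card ≤ (p - 1).divisors.card + 1 := card_insert_le _ _
    have h2 : (D.card : ℝ) ≤ (p - 1).divisors.card + 1 := by exact_mod_cast h1
    linarith
  set P := (Fintype.piFinset (fun _ : Fin t => D)).filter (fun h => h ∈ J) with hP
  have h1 := rep_sum P (fun h x => (1 : DirichletCharacter ℂ p) x *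
      ∏ i ∈ (univ : Finset (Fin t)), (if x ≠ 0 ∧ orderOf (b i * x ^ r i) = h i then (1 : ℂ) else 0))
    (fun _ => ∏ _i ∈ (univ : Finset (Fin t)), ((p - 1).divisors.card : ℝ))
    (fun h _ => rep_prod (p := p) univ
      (fun i x => (if x ≠ 0 ∧ orderOf (b i * x ^ r i) = h i then (1 : ℂ) else 0))
      (fun _ => ((p - 1).divisors.card : ℝ)) (fun _ _ => by positivity)
      (fun i _ => rep_ordpull (b i) (hr i) (h i)))
  have h2 : (∑ _h ∈ P, ∏ _i ∈ (univ : Finset (Fin t)), ((p - 1).divisors.card : ℝ)) ≤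
      (2 * ((p - 1).divisors.card : ℝ) ^ 2) ^ t := by
    rw [sum_const, nsmul_eq_mul, prod_const, card_univ, Fintype.card_fin]
    have h3 : (P.card : ℝ) ≤ (2 * ((p - 1).divisors.card : ℝ)) ^ t := by
      have h4 : P.card ≤ D.card ^ t := by
        refine (card_filter_le _ _).trans ?_
        rw [Fintype.card_piFinset, prod_const, card_univ, Fintype.card_fin]
      calc (P.card : ℝ) ≤ (D.card : ℝ) ^ t := by exact_mod_cast h4
        _ ≤ _ := by gcongr
    calc (P.card : ℝ) * ((p - 1).divisors.card : ℝ) ^ t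
        ≤ (2 * ((p - 1).divisors.card : ℝ)) ^ t * ((p - 1).divisors.card : ℝ) ^ t := by gcongr
      _ = _ := by rw [← mul_pow]; ring
  have h5 := rep_mono h1 h2
  convert h5 using 1
  funext x
  by_cases hx : x = 0
  · subst hx
    rw [if_neg (fun h3 => h3.1 rfl)]
    symm
    apply sum_eq_zero
    intro h _
    rw [MulChar.map_zero, zero_mul]
  · have hu : (1 : DirichletCharacter ℂ p) x = 1 := MulChar.one_apply (isUnit_iff_ne_zero.2 hx)
    simp only [hu, one_mul, ne_eq, hx, not_false_eq_true, true_and]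
    have h6 : ∀ h : Fin t → ℕ, (∏ i, (if orderOf (b i * x ^ r i) = h i then (1 : ℂ) else 0)) =
        if (fun i => orderOf (b i * x ^ r i)) = h then 1 else 0 := by
      intro h
      by_cases hh : (fun i => orderOf (b i * x ^ r i)) = h
      · rw [if_pos hh]
        apply prod_eq_one
        intro i _
        rw [if_pos (congrFun hh i)]
      · rw [if_neg hh]
        have h7 : ∃ i, orderOf (b i * x ^ r i) ≠ h i := by
          by_contra hcon
          push Not at hcon
          exact hh (funext hcon)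
        obtain ⟨i, hi⟩ := h7
        exact prod_eq_zero (mem_univ i) (if_neg hi)
    rw [sum_congr rfl (fun h _ => h6 h), sum_ite_eq]
    have hmem : (fun i => orderOf (b i * x ^ r i)) ∈ Fintype.piFinset (fun _ : Fin t => D) := by
      rw [Fintype.mem_piFinset]
      intro i
      rw [hD, mem_insert, Nat.mem_divisors]
      by_cases hb : b i = 0
      · left
        rw [hb, zero_mul, orderOf_eq_zero_iff']
        intro n hn h3
        rw [zero_pow hn.ne'] at h3
        exact zero_ne_one h3
      · right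
        exact ⟨orderOf_dvd_of_pow_eq_one
          (ZMod.pow_card_sub_one_eq_one (mul_ne_zero hb (pow_ne_zero _ hx))), hp1.ne'⟩
    by_cases hJ : (fun i => orderOf (b i * x ^ r i)) ∈ J
    · rw [if_pos hJ, if_pos (by rw [hP, mem_filter]; exact ⟨hmem, hJ⟩)]
    · rw [if_neg hJ, if_neg (by rw [hP, mem_filter]; exact fun h => hJ h.2)]

end Pool.Agent.TH893.JO
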