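import Pool.Agent.TH893.JO.R1

/-!
Joint laws of multiplicative orders along arbitrary sets of primes (helper893), part 2.
-/

set_option autoImplicit false

namespace Pool.Agent.TH893.JO

open Finset
open Pool.Agent.TH890.AS

/-- the condition on the residue class of `m` -/
def cond {t : ℕ} (B : Fin t → ℤ) (r : Fin t → ℕ) (J : ℕ → Set (Fin t → ℕ)) (p : ℕ) (x : ZMod p) :
    Prop :=
  x ≠ 0 ∧ (fun i => orderOf ((B i : ZMod p) * x ^ r i)) ∈ J p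

open Classical in
theorem joint_one (σ δ : ℝ) (hσ : 0 < σ) (hδ : 0 < δ) (k C t : ℕ) (hk : 1 ≤ k) (hC : 1 ≤ C) :
    ∃ c : ℝ, 0 < c ∧ ∃ X₀ : ℕ, ∀ X : ℕ, X₀ ≤ X → ∀ N : ℕ, X ^ 2 ≤ N ^ k → N ≤ X ^ C →
    ∀ S : Finset ℕ, (∀ p ∈ S, p.Prime ∧ p ≤ X) → (X : ℝ) ^ σ ≤ #S →
    ∀ (B : Fin t → ℤ) (r : Fin t → ℕ), (∀ i, 1 ≤ r i) → ∀ J : ℕ → Set (Fin t → ℕ),
    (#((Icc 1 N).filter (fun m : ℕ => #S * (X : ℝ) ^ (-c) <
      |(#(S.filter (fun p => cond B r J p (m : ZMod p))) : ℝ) -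
        ∑ p ∈ S, dens p (cond B r J p)|)) : ℝ) ≤ N * (X : ℝ) ^ (-(σ - δ) / k) := by
  obtain ⟨c, hc0, n1, hmain⟩ := main σ δ hσ hδ k C hk hC
  obtain ⟨e, he⟩ : ∃ e, e = c / (4 * (t + 1)) := ⟨_, rfl⟩
  have he0 : 0 < e := by rw [he]; positivity
  obtain ⟨C₄, hC₄, hdiv⟩ := Pool.Agent.H510R2.divisor_bound e he0
  obtain ⟨n2, h2⟩ := ev_rpow ((2 * C₄ ^ 2) ^ t) (c / 2) (by positivity)
  refine ⟨c, hc0, max (max n1 n2) 1, fun X hX N hXN hNX S hS hSσ B r hr J => ?_⟩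
  have a1 : n1 ≤ X := (le_max_left _ _).trans ((le_max_left _ _).trans hX)
  have a2 := h2 X ((le_max_right _ _).trans ((le_max_left _ _).trans hX))
  have hX1 : 1 ≤ X := (le_max_right _ _).trans hX
  have hXr : (1 : ℝ) ≤ X := by exact_mod_cast hX1
  have hX0 : (0 : ℝ) < X := by linarith
  have hr0 : ∀ i, r i ≠ 0 := fun i => by have := hr i; omega
  have h := hmain X a1 N hXN hNX S hS hSσ (cond B r J) (by
      intro p hp hF
      have hprime := (hS p hp).1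
      refine ⟨fun h => h.1 rfl, ?_⟩
      refine rep_mono (K := (2 * ((p - 1).divisors.card : ℝ) ^ 2) ^ t)
          (by
            convert rep_vec (fun i => (B i : ZMod p)) r hr0 (J p)
            exact Iff.rfl) ?_
      have hp1 : 1 ≤ p - 1 := by have := hprime.one_lt; omega
      have h4 : ((p - 1 : ℕ) : ℝ) ≤ X := by
        have := (hS p hp).2
        exact_mod_cast (by omega : p - 1 ≤ X)
      have h5 : ((p - 1).divisors.card : ℝ) ≤ C₄ * (X : ℝ) ^ e := by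
        refine (hdiv (p - 1) hp1).trans ?_
        have := Real.rpow_le_rpow (Nat.cast_nonneg (p - 1)) h4 he0.le
        gcongr
      calc (2 * ((p - 1).divisors.card : ℝ) ^ 2) ^ t
          ≤ (2 * (C₄ * (X : ℝ) ^ e) ^ 2) ^ t := by gcongr
        _ = (2 * C₄ ^ 2) ^ t * (X : ℝ) ^ (e * (2 * t)) := by
            rw [mul_pow C₄, ← mul_assoc, mul_pow (2 * C₄ ^ 2), ← pow_mul,
              ← Real.rpow_natCast ((X : ℝ) ^ e), ← Real.rpow_mul hX0.le]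
            push_cast
            ring_nf
        _ ≤ (X : ℝ) ^ (c / 2) * (X : ℝ) ^ (c / 2) := by
            apply mul_le_mul a2 _ (by positivity) (by positivity)
            apply Real.rpow_le_rpow_of_exponent_le hXr
            rw [he, div_mul_eq_mul_div, div_le_div_iff₀ (by positivity) (by norm_num)]
            have : (0 : ℝ) ≤ t := Nat.cast_nonneg t
            nlinarith
        _ = (X : ℝ) ^ c := by
            rw [← Real.rpow_add hX0]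
            ring_nf)
  refine le_trans (le_of_eq ?_) h
  congr 2

open Classical in
/-- simultaneously for many data -/
theorem joint (σ δ : ℝ) (hσ : 0 < σ) (hδ : 0 < δ) (k C t : ℕ) (hk : 1 ≤ k) (hC : 1 ≤ C) :
    ∃ c : ℝ, 0 < c ∧ ∃ X₀ : ℕ, ∀ X : ℕ, X₀ ≤ X → ∀ N : ℕ, X ^ 2 ≤ N ^ k → N ≤ X ^ C →
    ∀ n : ℕ, (n : ℝ) ≤ (X : ℝ) ^ (δ / (2 * k)) →
    ∀ S : Fin n → Finset ℕ, (∀ j, (X : ℝ) ^ σ ≤ #(S j)) → (∀ j, ∀ p ∈ S j, p.Prime ∧ p ≤ X) →
    ∀ (B : Fin n → Fin t → ℤ) (r : Fin n → Fin t → ℕ), (∀ j i, 1 ≤ r j i) →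
    ∀ J : Fin n → ℕ → Set (Fin t → ℕ),
    (#((Icc 1 N).filter (fun m : ℕ => ∃ j, #(S j) * (X : ℝ) ^ (-c) <
      |(#((S j).filter (fun p => cond (B j) (r j) (J j) p (m : ZMod p))) : ℝ) -
        ∑ p ∈ S j, dens p (cond (B j) (r j) (J j) p)|)) : ℝ) ≤ N * (X : ℝ) ^ (-(σ - δ) / k) := by
  obtain ⟨c, hc0, n1, h1⟩ := joint_one σ (δ / 2) hσ (by positivity) k C t hk hC
  refine ⟨c, hc0, max n1 1, fun X hX N hXN hNX n hn S hSσ hS B r hr J => ?_⟩
  have hX1 : 1 ≤ X := (le_max_right _ _).trans hX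
  have hXr : (1 : ℝ) ≤ X := by exact_mod_cast hX1
  have hX0 : (0 : ℝ) < X := by linarith
  have hkr : (1 : ℝ) ≤ k := by exact_mod_cast hk
  have h2 : ∀ j : Fin n, (#((Icc 1 N).filter (fun m : ℕ => #(S j) * (X : ℝ) ^ (-c) <
      |(#((S j).filter (fun p => cond (B j) (r j) (J j) p (m : ZMod p))) : ℝ) -
        ∑ p ∈ S j, dens p (cond (B j) (r j) (J j) p)|)) : ℝ) ≤
      N * (X : ℝ) ^ (-(σ - δ / 2) / k) := fun j =>
    h1 X ((le_max_left _ _).trans hX) N hXN hNX (S j) (hS j) (hSσ j) (B j) (r j) (hr j) (J j)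
  have h3 : (Icc 1 N).filter (fun m : ℕ => ∃ j, #(S j) * (X : ℝ) ^ (-c) <
      |(#((S j).filter (fun p => cond (B j) (r j) (J j) p (m : ZMod p))) : ℝ) -
        ∑ p ∈ S j, dens p (cond (B j) (r j) (J j) p)|) ⊆
      univ.biUnion (fun j => (Icc 1 N).filter (fun m : ℕ => #(S j) * (X : ℝ) ^ (-c) <
      |(#((S j).filter (fun p => cond (B j) (r j) (J j) p (m : ZMod p))) : ℝ) -
        ∑ p ∈ S j, dens p (cond (B j) (r j) (J j) p)|)) := by
    intro m hm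
    rw [mem_filter] at hm
    obtain ⟨hm1, j, hj⟩ := hm
    rw [mem_biUnion]
    exact ⟨j, mem_univ j, mem_filter.2 ⟨hm1, hj⟩⟩
  have h4 := (card_le_card h3).trans card_biUnion_le
  have h5 : (#((Icc 1 N).filter (fun m : ℕ => ∃ j, #(S j) * (X : ℝ) ^ (-c) <
      |(#((S j).filter (fun p => cond (B j) (r j) (J j) p (m : ZMod p))) : ℝ) -
        ∑ p ∈ S j, dens p (cond (B j) (r j) (J j) p)|)) : ℝ) ≤
      ∑ j : Fin n, (N : ℝ) * (X : ℝ) ^ (-(σ - δ / 2) / k) := by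
    refine le_trans (Nat.cast_le.2 h4) ?_
    rw [Nat.cast_sum]
    exact sum_le_sum fun j _ => h2 j
  refine h5.trans ?_
  rw [sum_const, card_univ, Fintype.card_fin, nsmul_eq_mul]
  calc (n : ℝ) * (N * (X : ℝ) ^ (-(σ - δ / 2) / k))
      ≤ (X : ℝ) ^ (δ / (2 * k)) * (N * (X : ℝ) ^ (-(σ - δ / 2) / k)) := by gcongr
    _ = N * ((X : ℝ) ^ (δ / (2 * k)) * (X : ℝ) ^ (-(σ - δ / 2) / k)) := by ring
    _ = N * (X : ℝ) ^ (-(σ - δ) / k) := by
        rw [← Real.rpow_add hX0]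
        congr 2
        field_simp
        ring

end Pool.Agent.TH893.JO
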